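import Mathlib

open Polynomial

namespace H11.Intw

variable {K : Type} [Field K]

/-- `P` and `Q` (of the same degree) are intertwined: `(z, w) ↦ (P z, Q w)` leaves invariant the
zero set `Z` of an irreducible polynomial in two variables, and `Z` projects onto both axes. -/
def Intertwined (P Q : K[X]) : Prop :=
  P.natDegree = Q.natDegree ∧ ∃ F : MvPolynomial (Fin 2) K, Irreducible F ∧
    (∀ z w, MvPolynomial.eval ![z, w] F = 0 → MvPolynomial.eval ![P.eval z, Q.eval w] F = 0) ∧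
    (∀ z, ∃ w, MvPolynomial.eval ![z, w] F = 0) ∧ ∀ w, ∃ z, MvPolynomial.eval ![z, w] F = 0

/-- The affine map `z ↦ a z + b`. -/
noncomputable def aff (a b : K) : K[X] := C a * X + C b

/-- `R = A⁻¹ ∘ P ∘ A` for `A = a z + b`, `a ≠ 0`. -/
def Conj (P R : K[X]) (a b : K) : Prop := a ≠ 0 ∧ P.comp (aff a b) = (aff a b).comp R

/-- For `R` monic and centered: `z ↦ ζ z` lies in `Σ(R)`. -/
def SigmaMC (R : K[X]) (ζ : K) : Prop :=
  (∃ (μ m : ℕ) (P₀ : K[X]), 0 < m ∧ R = X ^ μ * expand K m P₀ ∧ P₀.eval 0 ≠ 0 ∧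
    (∀ l, 2 ≤ l → ∀ Q, P₀ ≠ expand K l Q) ∧ P₀ ≠ 1 ∧ ζ ^ m = 1) ∨
  (R = X ^ R.natDegree ∧ ∃ n, 0 < n ∧ ζ ^ n = 1)

/-- `g ∈ Σ(P)`: `g = A ∘ (ζ z) ∘ A⁻¹` with `A⁻¹ ∘ P ∘ A` monic and centered. -/
def InSigma (P g : K[X]) : Prop :=
  ∃ (a b : K) (R : K[X]) (ζ : K), Conj P R a b ∧ R.Monic ∧ R.nextCoeff = 0 ∧ SigmaMC R ζ ∧
    g.comp (aff a b) = (aff a b).comp (C ζ * X)

/-- `P` is affinely conjugate to `z^d` or `±T_d`, where `T_d(w + 1/w) = w^d + 1/w^d`. -/
def Integrable (P : K[X]) : Prop :=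
  ∃ a b : K, Conj P (X ^ P.natDegree) a b ∨ Conj P (Chebyshev.C K P.natDegree) a b ∨
    Conj P (-Chebyshev.C K P.natDegree) a b

end H11.Intw

open H11.Intw

theorem Pool.Agent.Results.MP_2eeab0_an.Counter.result (K : Type) [Field K] [IsAlgClosed K]
    [CharZero K] : ∃ (P : K[X]) (a b : K), 2 ≤ P.natDegree ∧ a ≠ 0 ∧ ¬ Integrable P ∧
      Intertwined (P.comp (aff a b)) P ∧ ¬ InSigma P (aff a b) := by
  have hd : (X ^ 2 + 1 : K[X]).natDegree = 2 := by compute_degree!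
  have key : ∀ (R : K[X]) (a b : K), Conj (X ^ 2 + 1) R a b →
      ∀ z, (a * z + b) ^ 2 + 1 = a * R.eval z + b := fun R a b h z => by
    simpa [aff, eval_comp] using congrArg (eval z) h.2
  refine ⟨X ^ 2 + 1, 2, -3 / 2, hd.ge, two_ne_zero, ?_, ⟨?_, MvPolynomial.X 0 -
    MvPolynomial.C (1 / 4) * (MvPolynomial.X (Fin.succ 0) + MvPolynomial.C 3), ?_, ?_, ?_, ?_⟩, ?_⟩
  · rw [Integrable, hd]
    rintro ⟨a, b, h | h | h⟩ <;> have h0 := key _ a b h 0 <;> have h1 := key _ a b h 1 <;>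
      have h2 := key _ a b h (-1) <;> have ha := h.1 <;>
      simp [Chebyshev.C_two] at h0 h1 h2 <;> grind
  · rw [natDegree_comp, hd, aff, natDegree_linear two_ne_zero]
  · refine (MulEquiv.irreducible_iff (MvPolynomial.finSuccEquiv K 1)).1 ?_
    rw [map_sub, map_mul, map_add, MvPolynomial.finSuccEquiv_X_zero,
      MvPolynomial.finSuccEquiv_X_succ, ← MvPolynomial.algebraMap_eq, AlgEquiv.commutes,
      AlgEquiv.commutes, Polynomial.algebraMap_apply, Polynomial.algebraMap_apply, ← C_add, ← C_mul]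
    exact irreducible_X_sub_C _
  · intro z w h
    simp [aff, eval_comp] at h ⊢
    rw [show w = 4 * z - 3 by linear_combination -4 * h]
    ring
  · exact fun z => ⟨4 * z - 3, by simp⟩
  · exact fun w => ⟨(w + 3) / 4, by simp; ring⟩
  · rintro ⟨a, b, R, ζ, h, -, h2, -, h3⟩
    have hR : R = C a * X ^ 2 + C (2 * b) * X + C ((b ^ 2 + 1 - b) / a) := by
      refine Polynomial.funext fun z => mul_left_cancel₀ h.1 ?_
      have := key R a b h z
      have ha := h.1
      simp only [eval_add, eval_mul, eval_C, eval_pow, eval_X]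
      field_simp
      linear_combination -this
    have hb : b = 0 := by
      rw [hR, nextCoeff, natDegree_quadratic h.1] at h2
      simpa [coeff_X, coeff_C] using h2
    have := congrArg (eval 0) h3
    simp [aff, eval_comp, hb] at this
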